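import Mathlib

set_option autoImplicit false

namespace Pool.Agent.Results.MP_8ccf7f_al.NoUDF

open TensorProduct DualNumber TrivSqZeroExt

universe u

variable (k : Type) [Field k]

abbrev A := TrivSqZeroExt k (Polynomial k)

noncomputable def γ : A k →ₗ[k] A k →ₗ[k] A k :=
  ((LinearMap.mul k (Polynomial k)).compl₁₂ (sndHom k _) (sndHom k _)).compr₂ (inrHom k _)

theorem γ_apply (a b : A k) : γ k a b = inr (a.snd * b.snd) := rfl

noncomputable def m : k[ε] ⊗[k] A k →ₗ[k[ε]] k[ε] ⊗[k] A k →ₗ[k[ε]] k[ε] ⊗[k] A k :=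
  LinearMap.BilinMap.baseChange k[ε] (LinearMap.mul k (A k)) +
    (ε : k[ε]) • LinearMap.BilinMap.baseChange k[ε] (γ k)

theorem m_tmul (r s : k[ε]) (a b : A k) :
    m k (r ⊗ₜ a) (s ⊗ₜ b) = (r * s) ⊗ₜ (a * b) + (ε * (r * s)) ⊗ₜ γ k a b := by
  simp [m, smul_tmul']

theorem eps_red {N : Type u} [AddCommGroup N] [Module k N] (y : k[ε] ⊗[k] N) :
    ∃ d : N, (ε : k[ε]) • y = (ε : k[ε]) ⊗ₜ d := by
  induction y with
  | zero => exact ⟨0, by simp⟩
  | tmul r n =>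
    refine ⟨r.fst • n, ?_⟩
    rw [smul_tmul', ← smul_tmul]
    congr 1
    ext <;> simp
  | add x y h1 h2 =>
    obtain ⟨d, h1⟩ := h1
    obtain ⟨e, h2⟩ := h2
    exact ⟨d + e, by rw [smul_add, h1, h2, tmul_add]⟩

section
variable {k} {R : Type} [CommRing R] [Algebra k R] (e : R)

/-- congruence modulo `e` -/
def Cong {N : Type u} [AddCommGroup N] [Module k N] (x y : R ⊗[k] N) : Prop :=
  ∃ z : R ⊗[k] N, x = y + e • z

variable {A : Type} [Ring A] [Algebra k A]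

/-- `R`-bilinear products on `R ⊗ A` -/
structure Prd (k R A : Type) [Field k] [CommRing R] [Algebra k R] [Ring A] [Algebra k A] where
  bil : R ⊗[k] A →ₗ[R] R ⊗[k] A →ₗ[R] R ⊗[k] A

def Prd.mul (m : Prd k R A) (x y : R ⊗[k] A) : R ⊗[k] A := m.bil x y

def IsDeformation (m : Prd k R A) : Prop :=
  (∀ x y z, m.mul (m.mul x y) z = m.mul x (m.mul y z)) ∧
    (∃ u, ∀ x, m.mul u x = x ∧ m.mul x u = x) ∧
    ∀ a b : A, Cong e (m.mul (1 ⊗ₜ a) (1 ⊗ₜ b)) (1 ⊗ₜ (a * b))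

def Equivalent (m m' : Prd k R A) : Prop :=
  ∃ (T : R ⊗[k] A ≃ₗ[R] R ⊗[k] A) (t : R ⊗[k] A → R ⊗[k] A), t = T ∧ (∀ x, Cong e (t x) x) ∧
    ∀ x y, t (m.mul x y) = m'.mul (t x) (t y)

variable {B : Type u} [Ring B] [Algebra k B]

/-- the linear map `b ↦ b • a` -/
noncomputable def orb (ρ : B →ₐ[k] Module.End k A) (a : A) : B →ₗ[k] A :=
  LinearMap.applyₗ a ∘ₗ ρ.toLinearMap

/-- the linear map `b₁ ⊗ b₂ ↦ (b₁ • a) * (b₂ • a')` -/
noncomputable def act (ρ : B →ₐ[k] Module.End k A) (a a' : A) : B ⊗[k] B →ₗ[k] A :=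
  LinearMap.mul' k A ∘ₗ TensorProduct.map (orb ρ a) (orb ρ a')

/-- `m (a, a') = μ (F (a ⊗ a'))` -/
def Twisted (ρ : B →ₐ[k] Module.End k A) (F : R ⊗[k] (B ⊗[k] B)) (m : Prd k R A) : Prop :=
  ∀ a a' : A, m.mul (1 ⊗ₜ a) (1 ⊗ₜ a') = (act ρ a a').lTensor R F

end

theorem result [CharZero k] : ∃ (A : Type) (_ : Ring A) (_ : Algebra k A) (m : Prd k k[ε] A),
    IsDeformation ε m ∧ ∀ (B : Type u) [Ring B] [Algebra k B] (ρ : B →ₐ[k] Module.End k A)
      (F : k[ε] ⊗[k] (B ⊗[k] B)), Cong ε F (1 ⊗ₜ (1 ⊗ₜ 1)) →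
      ∀ m' : Prd k k[ε] A, Twisted ρ F m' → ¬ Equivalent ε m m' := by
  unfold IsDeformation Equivalent Twisted act orb Prd.mul
  refine ⟨A k, inferInstance, inferInstance, ⟨m k⟩, ⟨fun x y z => ?_, ⟨1, fun x => ?_⟩,
    fun a b => ⟨1 ⊗ₜ γ k a b, by simp [m_tmul, smul_tmul']⟩⟩, ?_⟩
  · induction x with
    | zero => simp
    | add x x' h1 h2 => simp only [map_add, LinearMap.add_apply, h1, h2]
    | tmul r a =>
    induction y with
    | zero => simp
    | add x x' h1 h2 => simp only [map_add, LinearMap.add_apply, h1, h2]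
    | tmul s b =>
    induction z with
    | zero => simp
    | add x x' h1 h2 => simp only [map_add, h1, h2]
    | tmul t c =>
    have e : γ k (a * b) c + γ k a b * c = γ k a (b * c) + a * γ k b c := by
      ext1
      · simp [γ_apply]
      · simp only [γ_apply, snd_add, snd_inr, TrivSqZeroExt.snd_mul, fst_inr, op_smul_eq_smul, zero_smul,
          Polynomial.smul_eq_C_mul]
        ring
    simp only [m_tmul, map_add, LinearMap.add_apply, mul_assoc, mul_left_comm r ε,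
      ← mul_assoc (ε : k[ε]) ε, eps_mul_eps, zero_mul, zero_tmul, add_zero, add_assoc, ← tmul_add,
      e]
  · induction x with
    | zero => simp
    | add x x' h1 h2 => simp only [map_add, LinearMap.add_apply, h1, h2, and_self]
    | tmul r a => simp [Algebra.TensorProduct.one_def, m_tmul, γ_apply]
  rintro B _ _ ρ _ ⟨G, rfl⟩ ⟨m'⟩ hm ⟨T, _, rfl, h1, h2⟩
  dsimp only at hm h2
  obtain ⟨G, hG⟩ := eps_red k G
  obtain ⟨s, rfl⟩ := TensorProduct.exists_finset G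
  let p : k[ε] ⊗[k] A k →ₗ[k] A k :=
    (TensorProduct.lid k (A k)).toLinearMap ∘ₗ (sndHom k k).rTensor (A k)
  have hp : ∀ r a, p (r ⊗ₜ a) = r.snd • a := fun r a => by simp [p]
  let f : A k →ₗ[k] k := (fstHom k k (Polynomial k)).toLinearMap
  let L : Polynomial k →ₗ[k] (s → k × k) × k := LinearMap.prod
    (LinearMap.pi fun i => LinearMap.prod (f ∘ₗ ρ i.1.1 ∘ₗ inrHom k _) (f ∘ₗ ρ i.1.2 ∘ₗ inrHom k _))
    (f ∘ₗ p ∘ₗ T.toLinearMap.restrictScalars k ∘ₗ TensorProduct.mk k _ _ 1 ∘ₗ inrHom k _)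
  refine Polynomial.not_finite (Module.Finite.of_injective L
    ((injective_iff_map_eq_zero L).2 fun v hv => ?_))
  obtain ⟨y, hy⟩ := h1 (1 ⊗ₜ inr v)
  obtain ⟨d, hd⟩ := eps_red k y
  have d0 : d.fst = 0 := by
    have : (p (T (1 ⊗ₜ inr v))).fst = 0 := congrArg Prod.snd hv
    simpa [hy, hd, hp] using this
  have z : ∀ a b : A k, a.fst = 0 → b.fst = 0 → a * b = 0 := fun a b h3 h4 => by
    ext1 <;> simp [h3, h4]
  have e : ∀ a : A k, (ε : k[ε]) ⊗ₜ[k] a = (ε : k[ε]) • (1 : k[ε]) ⊗ₜ[k] a := fun a => by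
    simp [smul_tmul']
  have h3 := h2 (1 ⊗ₜ inr v) (1 ⊗ₜ inr v)
  obtain ⟨y', hy'⟩ := h1 (1 ⊗ₜ γ k (inr v) (inr v))
  have h4 : ∑ i ∈ s, ρ i.1 (inr v) * ρ i.2 (inr v) = 0 := Finset.sum_eq_zero fun i hi =>
    z _ _ (congrArg (fun x => (x.1 ⟨i, hi⟩).1) hv) (congrArg (fun x => (x.1 ⟨i, hi⟩).2) hv)
  rw [m_tmul, z _ _ rfl rfl, tmul_zero, zero_add, mul_one, mul_one, e, map_smul, hy', hy, hd,
    e] at h3
  simp only [map_add, map_smul, LinearMap.add_apply, LinearMap.smul_apply, hm] at h3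
  simp only [map_add, map_smul, hG, smul_add, smul_smul, eps_mul_eps, zero_smul, add_zero, Algebra.TensorProduct.one_def,
    LinearMap.lTensor_tmul, smul_tmul', smul_eq_mul, zero_tmul, mul_one] at h3
  have h5 := congrArg (fun x => (p x).snd) h3
  simpa [hp, h4, z _ _ (fst_inr k v) d0, z _ _ d0 (fst_inr k v), γ_apply] using h5

end Pool.Agent.Results.MP_8ccf7f_al.NoUDF
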